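import Pool.Agent.MP_dbd6a6_co.H70.Spec

/-!
Two dominant conjugate zeros give the local Sturm property.
-/

open Finset Real

noncomputable section

namespace Pool.Agent.MP_dbd6a6_co.H70

open H92

lemma two_term {e0 e2 E : ℝ} {z U d0 d1 d2 : ℂ} (hz : 0 < z.im)
    (h0 : e0 + z * U + starRingEnd ℂ (z * U) = d0) (h1 : U + starRingEnd ℂ U = d1)
    (h2 : e2 + starRingEnd ℂ z * U + starRingEnd ℂ (starRingEnd ℂ z * U) = d2)
    (b0 : ‖d0 - z.re * d1‖ ≤ E) (b2 : ‖d2 - z.re * d1‖ ≤ E)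
    (hE : E < 2 * z.im * (‖U‖ - ‖d1‖ / 2)) : e0 * e2 < 0 := by
  have r0 : (d0 - z.re * d1).re = e0 - 2 * z.im * U.im := by
    rw [← h0, ← h1]; simp; ring
  have r2 : (d2 - z.re * d1).re = e2 + 2 * z.im * U.im := by
    rw [← h2, ← h1]; simp; ring
  have r1 : ‖d1‖ = 2 * |U.re| := by
    rw [← h1, Complex.add_conj, Complex.norm_real, Real.norm_eq_abs, abs_mul]; simp
  have a0 := (Complex.abs_re_le_norm _).trans b0
  have a2 := (Complex.abs_re_le_norm _).trans b2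
  rw [r0, abs_le] at a0
  rw [r2, abs_le] at a2
  have hU := Complex.norm_le_abs_re_add_abs_im U
  have hq : E < 2 * z.im * |U.im| := hE.trans_le (by rw [r1]; gcongr; linarith)
  rcases le_total 0 U.im with h | h
  · rw [abs_of_nonneg h] at hq
    exact mul_neg_of_pos_of_neg (by linarith) (by linarith)
  · rw [abs_of_nonpos h] at hq
    exact mul_neg_of_neg_of_pos (by linarith) (by linarith)

lemma logDeriv_shift {y : ℝ} (hy : 0 < y) (γ : ℝ) (m : ℕ) :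
    iteratedDeriv (m + 1) (logDeriv fun z => M y z * Complex.exp (-(γ * z))) 0 =
      (cc y (m + 2) : ℝ) := by
  have hM := differentiable_M hy
  have h0 : M y 0 ≠ 0 := by rw [M_zero hy]; exact one_ne_zero
  have hev : (logDeriv fun z => M y z * Complex.exp (-(γ * z))) =ᶠ[nhds 0]
      fun z => logDeriv (M y) z - γ := by
    filter_upwards [hM.continuous.continuousAt.eventually_ne h0] with z hz
    have hd : HasDerivAt (fun z : ℂ => Complex.exp (-(γ * z))) (Complex.exp (-(γ * z)) * -γ) z := by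
      simpa using ((hasDerivAt_id z).const_mul (γ : ℂ)).neg.cexp
    rw [logDeriv_mul (g := fun z : ℂ => Complex.exp (-(γ * z))) z hz (Complex.exp_ne_zero _) (hM z)
      hd.differentiableAt, logDeriv_apply
      (fun z : ℂ => Complex.exp (-(γ * z))), hd.deriv, mul_div_cancel_left₀ _ (Complex.exp_ne_zero _)]
    ring
  rw [hev.iteratedDeriv_eq, iteratedDeriv_succ', ← logDeriv_M hy, iteratedDeriv_succ']
  congr 1
  ext z
  exact deriv_sub_const _

lemma inv_pow_eq {r : ℂ} (hr : r ≠ 0) (k : ℕ) : r⁻¹ ^ k = r * r⁻¹ ^ (k + 1) := by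
  rw [pow_succ', ← mul_assoc, mul_inv_cancel₀ hr, one_mul]

theorem core : CoreStmt := by
  intro y n γ R B z Z hy hn hR hB hz h0 hzR hb hZ hs hin hc
  obtain ⟨k, rfl⟩ : ∃ k, n = k + 3 := ⟨n - 3, by omega⟩
  have hM := differentiable_M hy
  have hz0 : z ≠ 0 := by rintro rfl; simp at hz
  have hne : z ≠ starRingEnd ℂ z := fun e => by
    have := congrArg Complex.im e
    simp at this; linarith
  have hn1 : starRingEnd ℂ z ∉ Z := fun k => (hZ _ k).2.2.2.2 rfl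
  have hn2 : z ∉ insert (starRingEnd ℂ z) Z := by
    rw [mem_insert, not_or]; exact ⟨hne, fun k => (hZ _ k).2.2.2.1 rfl⟩
  have hd : ∀ w : ℂ, HasDerivAt (fun z : ℂ => Complex.exp (-(γ * z)))
      (Complex.exp (-(γ * w)) * -γ) w := fun w => by
    simpa using ((hasDerivAt_id w).const_mul (γ : ℂ)).neg.cexp
  have P := PS (f := fun z => M y z * Complex.exp (-(γ * z)))
    (hM.mul fun w => (hd w).differentiableAt) (by simp [M_zero hy]) hR hb
    (insert z (insert (starRingEnd ℂ z) Z))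
    (by
      intro r hr
      simp only [mem_insert] at hr
      rcases hr with rfl | rfl | hr
      · exact ⟨by simp [h0], hzR⟩
      · exact ⟨by simp [M_conj, h0], by simpa using hzR⟩
      · exact ⟨by simp [(hZ r hr).1], (hZ r hr).2.2.1⟩)
    (by
      intro w hw hw0
      have hw1 : M y w = 0 := by simpa using hw0
      refine ⟨by simpa using (hs w hw hw1).1, ?_⟩
      rw [((hM w).hasDerivAt.fun_mul (hd w)).deriv, hw1, zero_mul, add_zero]
      exact mul_ne_zero (hs w hw hw1).2 (Complex.exp_ne_zero _))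
  simp only [sum_insert hn2, sum_insert hn1] at P
  have P0 := P (k + 1)
  have P1 := P (k + 2)
  have P2 := P (k + 3)
  rw [logDeriv_shift hy] at P0 P1 P2
  rw [hc] at P1
  set U := z⁻¹ ^ (k + 3) with hU
  have hzn : 0 < ‖z‖ := norm_pos_iff.2 hz0
  have hρ0 : ∀ ρ ∈ Z, 0 < ‖ρ‖ := fun ρ h => hzn.trans_le (hZ ρ h).2.1
  have hcz : starRingEnd ℂ z ≠ 0 := by simpa using hz0
  have hnz : ((‖z‖ : ℝ) : ℂ) ^ 2 = z * starRingEnd ℂ z := by
    rw [Complex.mul_conj, Complex.normSq_eq_norm_sq]; push_cast; ring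
  set T0 := ((cc y (k + 2) : ℝ) : ℂ) / ((k + 1).factorial : ℂ) + (z⁻¹ ^ (k + 1 + 1) +
    ((starRingEnd ℂ z)⁻¹ ^ (k + 1 + 1) + ∑ r ∈ Z, r⁻¹ ^ (k + 1 + 1))) with hT0
  set T1 := ((0 : ℝ) : ℂ) / ((k + 2).factorial : ℂ) + (U +
    ((starRingEnd ℂ z)⁻¹ ^ (k + 2 + 1) + ∑ r ∈ Z, r⁻¹ ^ (k + 2 + 1))) with hT1
  set T2 := ((cc y (k + 2 + 2) : ℝ) : ℂ) / ((k + 3).factorial : ℂ) + (z⁻¹ ^ (k + 3 + 1) +
    ((starRingEnd ℂ z)⁻¹ ^ (k + 3 + 1) + ∑ r ∈ Z, r⁻¹ ^ (k + 3 + 1))) with hT2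
  have hx : |z.re| ≤ ‖z‖ := Complex.abs_re_le_norm z
  set T := 2 * (k + 4 : ℝ) * B / R ^ (k + 3) with hT
  have hT' : 0 ≤ T := by positivity
  have t1 : ‖T1‖ ≤ T := P1.trans (by
    rw [hT]; push_cast
    exact div_le_div_of_nonneg_right (by nlinarith) (by positivity))
  have t0 : ‖T0‖ ≤ R * T := P0.trans (by
    rw [hT, pow_succ R (k + 2), mul_div_assoc', mul_comm R, mul_div_mul_right _ _ hR.ne']
    push_cast
    exact div_le_div_of_nonneg_right (by nlinarith) (by positivity))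
  have t2 : ‖z‖ ^ 2 * ‖T2‖ ≤ R * T := by
    calc _ ≤ R ^ 2 * (2 * (((k + 3 : ℕ) : ℝ) + 1) * B / R ^ (k + 3 + 1)) := by gcongr
      _ = R * T := by rw [hT]; push_cast; field_simp; ring
  have t3 : ‖(z.re : ℂ) * T1‖ ≤ R * T := by
    rw [norm_mul, Complex.norm_real, Real.norm_eq_abs]
    exact mul_le_mul (hx.trans hzR) t1 (norm_nonneg _) hR.le
  have key := two_term (e0 := cc y (k + 2) / (k + 1).factorial)
    (e2 := ‖z‖ ^ 2 * (cc y (k + 4) / (k + 3).factorial))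
    (E := ∑ ρ ∈ Z, (‖ρ - z.re‖ + z.im ^ 2 / ‖ρ‖) * ‖ρ‖⁻¹ ^ (k + 3) + 2 * R * T) (U := U)
    (d0 := T0 - ∑ r ∈ Z, r⁻¹ ^ (k + 2)) (d1 := T1 - ∑ r ∈ Z, r⁻¹ ^ (k + 3))
    (d2 := ‖z‖ ^ 2 * (T2 - ∑ r ∈ Z, r⁻¹ ^ (k + 4))) hz
    (by
      rw [hT0, hU, inv_pow_eq hz0 (k + 1 + 1), inv_pow_eq hcz (k + 1 + 1)]
      simp only [map_mul, map_pow, map_inv₀]
      push_cast
      ring)
    (by
      rw [hT1, hU]
      simp only [map_pow, map_inv₀]
      push_cast
      ring)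
    (by
      rw [hT2, hU, inv_pow_eq hz0 (k + 3), map_mul, map_mul, map_pow, map_inv₀, Complex.conj_conj]
      push_cast
      rw [hnz]
      ring)
    (by
      have e : T0 - ∑ r ∈ Z, r⁻¹ ^ (k + 2) - z.re * (T1 - ∑ r ∈ Z, r⁻¹ ^ (k + 3)) =
          -(∑ r ∈ Z, (r - z.re) * r⁻¹ ^ (k + 3)) + (T0 - z.re * T1) := by
        have : ∑ r ∈ Z, (r - z.re) * r⁻¹ ^ (k + 3) =
            ∑ r ∈ Z, r⁻¹ ^ (k + 2) - z.re * ∑ r ∈ Z, r⁻¹ ^ (k + 3) := by
          rw [mul_sum, ← sum_sub_distrib]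
          refine sum_congr rfl fun r hr => ?_
          rw [inv_pow_eq (norm_pos_iff.1 (hρ0 r hr)) (k + 2)]
          ring
        rw [this]; ring
      rw [e]
      refine (norm_add_le _ _).trans (add_le_add ?_ ((norm_sub_le _ _).trans (by linarith)))
      rw [norm_neg]
      refine (norm_sum_le _ _).trans (sum_le_sum fun r hr => ?_)
      rw [norm_mul, norm_pow, norm_inv]
      gcongr
      exact le_add_of_nonneg_right (by positivity))
    (by
      have e : (‖z‖ : ℂ) ^ 2 * (T2 - ∑ r ∈ Z, r⁻¹ ^ (k + 4)) -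
          z.re * (T1 - ∑ r ∈ Z, r⁻¹ ^ (k + 3)) =
          -(∑ r ∈ Z, ((z.im ^ 2 - z.re * (r - z.re)) / r) * r⁻¹ ^ (k + 3)) +
            (‖z‖ ^ 2 * T2 - z.re * T1) := by
        have h2 : (‖z‖ : ℂ) ^ 2 = z.re ^ 2 + z.im ^ 2 := by
          have := Complex.sq_norm z
          rw [Complex.normSq_apply] at this
          exact_mod_cast this.trans (by ring)
        have : ∑ r ∈ Z, ((z.im ^ 2 - z.re * (r - z.re)) / r) * r⁻¹ ^ (k + 3) =
            ‖z‖ ^ 2 * ∑ r ∈ Z, r⁻¹ ^ (k + 4) - z.re * ∑ r ∈ Z, r⁻¹ ^ (k + 3) := by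
          rw [mul_sum, mul_sum, ← sum_sub_distrib]
          refine sum_congr rfl fun r hr => ?_
          rw [h2, inv_pow_eq (norm_pos_iff.1 (hρ0 r hr)) (k + 3), div_eq_mul_inv, mul_assoc,
            ← mul_assoc r⁻¹, inv_mul_cancel₀ (norm_pos_iff.1 (hρ0 r hr))]
          ring
        rw [this]; ring
      rw [e]
      refine (norm_add_le _ _).trans (add_le_add ?_ ((norm_sub_le _ _).trans ?_))
      · rw [norm_neg]
        refine (norm_sum_le _ _).trans (sum_le_sum fun r hr => ?_)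
        rw [norm_mul, norm_pow, norm_inv, norm_div]
        gcongr
        have h1 := hρ0 r hr
        rw [div_le_iff₀ h1, add_mul, div_mul_cancel₀ _ h1.ne']
        refine (norm_sub_le _ _).trans ?_
        rw [norm_mul, norm_pow, Complex.norm_real, Complex.norm_real, Real.norm_eq_abs,
          Real.norm_eq_abs, sq_abs]
        have := mul_le_mul_of_nonneg_right (hx.trans (hZ r hr).2.1) (norm_nonneg (r - z.re))
        linarith
      · rw [norm_mul, norm_pow, Complex.norm_real, norm_norm]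
        linarith)
    (by
      have d1 : ‖T1 - ∑ r ∈ Z, r⁻¹ ^ (k + 3)‖ ≤ T + ∑ r ∈ Z, ‖r‖⁻¹ ^ (k + 3) := by
        refine (norm_sub_le _ _).trans (add_le_add t1 ((norm_sum_le _ _).trans (le_of_eq ?_)))
        simp
      have hN : 0 < ‖z‖ ^ (k + 3) := by positivity
      refine lt_of_lt_of_le ?_ (mul_le_mul_of_nonneg_left (sub_le_sub_left
        (div_le_div_of_nonneg_right d1 zero_le_two) _) (by positivity))
      refine lt_of_mul_lt_mul_right ?_ hN.le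
      have e1 : ‖U‖ * ‖z‖ ^ (k + 3) = 1 := by
        rw [hU, norm_pow, norm_inv, ← mul_pow, inv_mul_cancel₀ hzn.ne', one_pow]
      have e2 : T * ‖z‖ ^ (k + 3) = 2 * ((((k + 3 : ℕ) : ℝ) + 1) * B * (‖z‖ / R) ^ (k + 3)) := by
        rw [hT, div_pow]; push_cast; ring
      have e3 : (∑ r ∈ Z, ‖r‖⁻¹ ^ (k + 3)) * ‖z‖ ^ (k + 3) = ∑ r ∈ Z, (‖z‖ / ‖r‖) ^ (k + 3) := by
        rw [sum_mul]
        exact sum_congr rfl fun r _ => by rw [div_eq_mul_inv, mul_pow, mul_comm]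
      have e4 : (∑ ρ ∈ Z, (‖ρ - z.re‖ + z.im ^ 2 / ‖ρ‖) * ‖ρ‖⁻¹ ^ (k + 3)) * ‖z‖ ^ (k + 3) =
          ∑ ρ ∈ Z, (‖ρ - z.re‖ + z.im ^ 2 / ‖ρ‖) * (‖z‖ / ‖ρ‖) ^ (k + 3) := by
        rw [sum_mul]
        exact sum_congr rfl fun r _ => by rw [div_eq_mul_inv ‖z‖, mul_pow]; ring
      calc _ = ∑ ρ ∈ Z, (‖ρ - z.re‖ + z.im ^ 2 / ‖ρ‖) * (‖z‖ / ‖ρ‖) ^ (k + 3) +
            2 * R * (T * ‖z‖ ^ (k + 3)) := by rw [← e4]; ring
        _ < 2 * z.im * (1 - (∑ ρ ∈ Z, (‖z‖ / ‖ρ‖) ^ (k + 3)) / 2 -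
            (((k + 3 : ℕ) : ℝ) + 1) * B * (‖z‖ / R) ^ (k + 3)) := by rw [e2]; linarith
        _ = _ := by
          linear_combination (-2 * z.im) * e1 + z.im * e2 + z.im * e3)
  have hpos : 0 < ‖z‖ ^ 2 / ((k + 1).factorial * (k + 3).factorial) := by positivity
  refine neg_of_mul_neg_left (b := ‖z‖ ^ 2 / ((k + 1).factorial * (k + 3).factorial)) ?_ hpos.le
  refine lt_of_eq_of_lt ?_ key
  show cc y (k + 2) * cc y (k + 4) * _ = _
  field_simp

end Pool.Agent.MP_dbd6a6_co.H70
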