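import Pool.Agent.MP_dbd6a6_co.H70.Spec

/-!
The three ranges of `y` cover everything.
-/

open Finset Real MeasureTheory

noncomputable section

namespace Pool.Agent.MP_dbd6a6_co.H70

open H92

lemma exists_a (hm : MeasStmt) {y : ℝ} (hy : 0 < y) (hy' : y ≤ 1 / 10 ^ 6)
    (h : IA y (fun t => exp (5.5 * t)) ≤ 1.99) :
    ∃ a : ℝ, 5.5 ≤ a ∧ IR y (fun t => exp (a * t)) = 1 := by
  have hw := continuous_wt hy
  have hc : Continuous fun x : ℝ => IR y fun t => exp (x * t) := by
    unfold IR
    exact intervalIntegral.continuous_parametric_intervalIntegral_of_continuous' (by fun_prop) _ _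
  have h1 : IR y (fun t => exp (5.5 * t)) ≤ 1 := by
    have e1 := hm.split y (fun t => exp (5.5 * t)) hy (by fun_prop)
    have e2 := hm.split y (fun _ => 1) hy (by fun_prop)
    have e3 : IA y (fun _ => 1) = 1 := by simpa [IA] using mom_zero hy
    have e4 := hm.massR y hy
    have e5 : IL y (fun _ => 1) ≤ IL y fun t => exp (5.5 * t) := by
      unfold IL
      refine intervalIntegral.integral_mono_on (by linarith [pi_pos])
        (Continuous.intervalIntegrable (by fun_prop) _ _)
        (Continuous.intervalIntegrable (by fun_prop) _ _) fun θ _ => ?_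
      exact mul_le_mul_of_nonneg_left (one_le_exp (by have := xx_pos hy θ; positivity))
        (wt_nonneg hy θ)
    norm_num at hy'
    linarith
  set x := 5.5 + 1 / (0.0056 * y) with hx
  have hx0 : 0 < 1 / (0.0056 * y) := by positivity
  have h2 : 1 ≤ IR y fun t => exp (x * t) := by
    refine le_trans ?_ (hm.lower y (1 / (0.0056 * y)) (fun t => exp (x * t)) hy
      (hy'.trans (by norm_num)) hx0.le (by fun_prop) (fun t _ => (exp_pos _).le) fun t ht => ?_)
    · rw [mul_one_div_cancel (by positivity)]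
    · have := add_one_le_exp (x * t)
      nlinarith [ht.1]
  obtain ⟨a, ha, e⟩ := intermediate_value_Icc (a := 5.5) (b := x) (by linarith) hc.continuousOn
    ⟨h1, h2⟩
  exact ⟨a, ha.1, e⟩

theorem loc_all (hm : MeasStmt) (mid : MidStmt) (box : BoxStmt) (small : SmallStmt)
    (tiny : TinyStmt) (n : ℕ) (hn : 200 ≤ n) (y : ℝ) (hy : 0 < y) : Loc y n := by
  obtain ⟨y₀, -, h0, h1, h2⟩ := mid
  rcases le_total y₀ y with h | h
  · exact h1 y h n hn
  obtain ⟨a, ha, e⟩ := exists_a hm hy (h.trans h0) (h2 y hy h)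
  rcases le_total (18 * a ^ 2) (25 * (n : ℝ)) with k | k
  · exact small y a n hy (h.trans h0) ha e hn k
  · have hn' : (200 : ℝ) ≤ n := by exact_mod_cast hn
    have ha' : 16.5 ≤ a := by nlinarith
    exact tiny y (a - 0.32) n hy (h.trans h0) hn (by linarith) (by simpa using k)
      ((box y a hy (h.trans h0) ha e).2.2.2.2.2 ha')

end Pool.Agent.MP_dbd6a6_co.H70
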