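import Pool.Agent.MP_dbd6a6_co.H92.Upper
import Pool.Agent.MP_dbd6a6_co.H92.Cara

/-!
Interface statements for the real-rootedness proof.
-/

open Finset Real

noncomputable section

namespace Pool.Agent.MP_dbd6a6_co.H70

open H92

/-- The local Sturm property. -/
def Loc (y : ℝ) (n : ℕ) : Prop := cc y n = 0 → cc y (n - 1) * cc y (n + 1) < 0

/-- Right end of the support. -/
def bet (y : ℝ) : ℝ := (√(1 + y) + 1) ^ 2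

/-- Integral over the part of the support where `1 ≤ t`. -/
def IR (y : ℝ) (g : ℝ → ℝ) : ℝ := ∫ θ in (0 : ℝ)..2 * π / 3, wt y θ * g (xx y θ)

/-- Integral over the part of the support where `t ≤ 1 + y`. -/
def IL (y : ℝ) (g : ℝ → ℝ) : ℝ := ∫ θ in (2 * π / 3)..π, wt y θ * g (xx y θ)

/-- Integral over the whole support. -/
def IA (y : ℝ) (g : ℝ → ℝ) : ℝ := ∫ θ in (0 : ℝ)..π, wt y θ * g (xx y θ)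

/-- Module G: the finite check. -/
def FinStmt : Prop :=
  (∀ n : ℕ, 2 ≤ n → n ≤ 200 → ∃ u : ℕ → ℝ, StrictMono u ∧ 0 < u 0 ∧
    ∀ i < n / 2, 0 < (-1) ^ i * cc (u i) n) ∧
  ∃ u : ℕ → ℝ, StrictMono u ∧ 0 < u 0 ∧ ∀ i ≤ 197,
    0 < (-1) ^ ((i + 1) / 2) * cc (u i) 200 ∧ 0 < (-1) ^ (i / 2) * cc (u i) 199

/-- Module H: Sturm induction. -/
def SturmStmt : Prop := FinStmt → (∀ n : ℕ, 200 ≤ n → ∀ y : ℝ, 0 < y → Loc y n) →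
  ∀ n : ℕ, 1 ≤ n → ∀ z : ℂ, Polynomial.aeval z (A n) = 0 → z.im = 0

/-- Module Core: two dominant zeros give the local Sturm property. -/
def CoreStmt : Prop := ∀ (y : ℝ) (n : ℕ) (γ R B : ℝ) (z₁ : ℂ) (Z : Finset ℂ), 0 < y → 3 ≤ n →
  0 < R → 0 ≤ B → 0 < z₁.im → M y z₁ = 0 → ‖z₁‖ ≤ R →
  (∀ z : ℂ, ‖z‖ = 2 * R → ‖M y z * Complex.exp (-(γ * z))‖ ≤ exp B) →
  (∀ ρ ∈ Z, M y ρ = 0 ∧ ‖z₁‖ ≤ ‖ρ‖ ∧ ‖ρ‖ ≤ R ∧ ρ ≠ z₁ ∧ ρ ≠ starRingEnd ℂ z₁) →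
  (∀ z : ℂ, ‖z‖ < R → M y z = 0 →
    (z = z₁ ∨ z = starRingEnd ℂ z₁ ∨ z ∈ Z) ∧ deriv (M y) z ≠ 0) →
  ∑ ρ ∈ Z, (‖ρ - z₁.re‖ + z₁.im ^ 2 / ‖ρ‖) * (‖z₁‖ / ‖ρ‖) ^ n +
      4 * R * (n + 1) * B * (‖z₁‖ / R) ^ n <
    2 * z₁.im * (1 - (∑ ρ ∈ Z, (‖z₁‖ / ‖ρ‖) ^ n) / 2 - (n + 1) * B * (‖z₁‖ / R) ^ n) →
  Loc y n

/-- Module F: the middle and large range of `y`. -/
def MidStmt : Prop := ∃ y₀ : ℝ, 0 < y₀ ∧ y₀ ≤ 1 / 10 ^ 6 ∧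
  (∀ y : ℝ, y₀ ≤ y → ∀ n : ℕ, 200 ≤ n → Loc y n) ∧
  ∀ y : ℝ, 0 < y → y ≤ y₀ → IA y (fun t => exp (5.5 * t)) ≤ 1.99

/-- Module B: integration by parts and elementary bounds for the measure. -/
structure MeasStmt : Prop where
  bet_ge : ∀ y : ℝ, 0 < y → 4 ≤ bet y
  bet_le : ∀ y : ℝ, 0 < y → bet y ≤ 4 + 2 * y
  rangeR : ∀ y θ : ℝ, 0 < y → θ ∈ Set.Icc 0 (2 * π / 3) → 1 ≤ xx y θ
  rangeL : ∀ y θ : ℝ, 0 < y → θ ∈ Set.Icc (2 * π / 3) π → xx y θ ≤ 1 + y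
  split : ∀ (y : ℝ) (g : ℝ → ℝ), 0 < y → ContinuousOn g (Set.Ioi 0) → IA y g = IR y g + IL y g
  monoR : ∀ (y : ℝ) (g h : ℝ → ℝ), 0 < y → ContinuousOn g (Set.Ioi 0) →
    ContinuousOn h (Set.Ioi 0) → (∀ t ∈ Set.Icc 1 (bet y), g t ≤ h t) → IR y g ≤ IR y h
  massR : ∀ y : ℝ, 0 < y → IR y (fun _ => 1) ≤ y
  smallL : ∀ (y K : ℝ) (g : ℝ → ℝ), 0 < y → 0 ≤ K → ContinuousOn g (Set.Ioi 0) →
    (∀ t ∈ Set.Ioc 0 (1 + y), g t ≤ K * t) → IL y g ≤ K * y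
  lower : ∀ (y K : ℝ) (g : ℝ → ℝ), 0 < y → y ≤ 1 / 1000 → 0 ≤ K → ContinuousOn g (Set.Ioi 0) →
    (∀ t ∈ Set.Icc 1 (bet y), 0 ≤ g t) → (∀ t ∈ Set.Icc 3.41 (bet y), K ≤ g t) →
    0.0056 * y * K ≤ IR y g
  tilt : ∀ (y X : ℝ) (G G' : ℝ → ℝ), 0 < y → 3 / 2 < X → (∀ t, 0 < t → HasDerivAt G (G' t) t) →
    ContinuousOn G' (Set.Ioi 0) → (∀ t, 0 < t → 0 ≤ G t) →
    (∀ t ∈ Set.Icc 1 (bet y), X * G t ≤ G' t) →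
    IR y (fun t => (bet y - t) * G t) ≤ 3 / 2 / (X - 3 / 2) * IR y G ∧
    IR y (fun t => (bet y - t) ^ 2 * G t) ≤
      5 / 2 / (X - 3 / 2) * IR y (fun t => (bet y - t) * G t)
  mm_pos : ∀ (y : ℝ) (r : ℕ), 0 < y → 0 < mm (-y) r
  mm_up : ∀ (y : ℝ) (r : ℕ), 0 < y → mm (-y) (r + 1) ≤ bet y * mm (-y) r
  mm_low : ∀ (y : ℝ) (r : ℕ), 0 < y → 1 ≤ r →
    bet y * mm (-y) r ≤ mm (-y) (r + 1) * (1 + 6 / (r + 1))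

/-- The moment generating series without its constant term. -/
def Wps (y : ℝ) : PowerSeries ℝ :=
  PowerSeries.mk fun k => if k = 0 then 0 else mm (-y) k / k.factorial

/-- Normalized coefficients of the powers of `Wps`. -/
def aa (y : ℝ) (j m : ℕ) : ℝ := m.factorial * PowerSeries.coeff m (Wps y ^ j)

/-- A binomial transform of the moments. -/
def VI (y lam : ℝ) (p : ℕ) : ℝ := IA y fun t => (1 + t / lam) ^ p - 1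

/-- Module E1: coefficient inequalities. -/
structure CoefStmt : Prop where
  cc_eq : ∀ (y : ℝ) (m : ℕ), 0 < y → 1 ≤ m →
    cc y m = ∑ j ∈ range m, (-1) ^ j * aa y (j + 1) m / (j + 1)
  pos : ∀ (y : ℝ) (j m : ℕ), 0 < y → 1 ≤ j → j ≤ m → 0 < aa y j m
  zero : ∀ (y : ℝ) (j m : ℕ), m < j → aa y j m = 0
  diag : ∀ (y : ℝ) (m : ℕ), aa y (m + 1) (m + 1) = (m + 1) * y * aa y m m
  step_up : ∀ (y : ℝ) (j m : ℕ), 0 < y →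
    ((m : ℝ) + 1 - j) * aa y j (m + 1) ≤ j * bet y * (m + 1) * aa y j m
  step_low : ∀ (y : ℝ) (j m : ℕ), 0 < y →
    j * bet y * (m + 1) * aa y j m ≤ ((m : ℝ) + 1 + 6 * j) * aa y j (m + 1)
  ratio_low : ∀ (y : ℝ) (j m : ℕ), 0 < y → 1 ≤ j → j ≤ m →
    VI y (j * bet y) (m - j) * aa y j m ≤ aa y (j + 1) m
  ratio_up : ∀ (y : ℝ) (j m : ℕ), 0 < y → 1 ≤ j →
    aa y (j + 1) m ≤ VI y (j * bet y) (m + 6 * j) * aa y j m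

/-- Module E2: strong log-concavity. -/
structure ThetaStmt : Prop where
  theta : ∀ (y : ℝ) (i j m : ℕ), 0 < y → y ≤ 1 / 10 ^ 6 → 199 ≤ m → 1 ≤ j → j + 1 ≤ i →
    11.5 * ((j : ℝ) + 1) ^ 2 + j ≤ m →
    VI y (i * bet y) (m + 6 * i) ≤ 0.015 * VI y (j * bet y) (m - j)
  mono : ∀ (y lam lam' : ℝ) (p p' : ℕ), 0 < y → 0 < lam → lam ≤ lam' → p' ≤ p →
    VI y lam' p' ≤ VI y lam p
  nonneg : ∀ (y lam : ℝ) (p : ℕ), 0 < y → 0 < lam → 0 ≤ VI y lam p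
  le_exp : ∀ (y lam X : ℝ) (p : ℕ), 0 < y → 0 < lam → p ≤ X * lam →
    VI y lam p ≤ IA y (fun t => exp (X * t)) - 1

/-- Module E3: the tiny range of `y`. -/
def TinyStmt : Prop := ∀ (y X : ℝ) (n : ℕ), 0 < y → y ≤ 1 / 10 ^ 6 → 200 ≤ n → 0 ≤ X →
  25 * (n : ℝ) ≤ 18 * (X + 0.32) ^ 2 → IA y (fun t => exp (X * t)) ≤ 1.3 → Loc y n

/-- The standard deviation bound of the tilted law. -/
def sg (a : ℝ) : ℝ := 1.25 / (a - 1.501)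

/-- The Lipschitz constant. -/
def kp (a : ℝ) : ℝ := sg a / (1 - (0.21 * a ^ 2 + 0.01) * sg a ^ 2 / 2) + 0.001

/-- Module D1: the zeros of `M y` in the disc of radius `1.1 * a` for small `y`. -/
def BoxStmt : Prop := ∀ y a : ℝ, 0 < y → y ≤ 1 / 10 ^ 6 → 5.5 ≤ a →
  IR y (fun t => exp (a * t)) = 1 →
  (∀ z : ℂ, M y z = 0 → a ≤ z.re →
    (1 + 3.6 * (z.re - a)) * (1 - z.im ^ 2 * sg a ^ 2 / 2 - 0.0045 / a) ≤ 1) ∧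
  (∀ z : ℂ, ‖z‖ ≤ 1.1 * a → M y z = 0 → a - 0.005 / a ≤ z.re ∧ deriv (M y) z ≠ 0) ∧
  (∀ z : ℂ, M y z = 0 → |z.im| ≤ 2 → 0 < z.re) ∧
  (∃ ι : ℂ → ℕ, Set.InjOn ι {z | ‖z‖ ≤ 1.1 * a ∧ M y z = 0 ∧ 0 < z.im} ∧
    ∀ z : ℂ, ‖z‖ ≤ 1.1 * a → M y z = 0 → 0 < z.im →
      (bet y - sg a - kp a) * z.im ≤ (2 * ι z + 1) * π ∧
      (2 * ι z + 1) * π ≤ (bet y - sg a + kp a) * z.im) ∧
  (∀ z : ℂ, ‖z‖ = 2 * (1.1 * a) → ‖M y z‖ ≤ exp (5 * a)) ∧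
  (16.5 ≤ a → IA y (fun t => exp ((a - 0.32) * t)) ≤ 1.3)

/-- Module D2: the small range of `y`. -/
def SmallStmt : Prop := ∀ (y a : ℝ) (n : ℕ), 0 < y → y ≤ 1 / 10 ^ 6 → 5.5 ≤ a →
  IR y (fun t => exp (a * t)) = 1 → 200 ≤ n → 18 * a ^ 2 ≤ 25 * n → Loc y n

end Pool.Agent.MP_dbd6a6_co.H70
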